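import Mathlib

set_option autoImplicit false

namespace Pool.Agent.PowPart

open Finset

/-- The unit `1 + √2`. -/
def eta : ℤ√2 := ⟨1, 1⟩

/-- Half companion Pell numbers. -/
def a (N : ℕ) : ℤ := (eta ^ N).re

/-- Pell numbers. -/
def b (N : ℕ) : ℤ := (eta ^ N).im

theorem a_zero : a 0 = 1 := by simp [a]
theorem b_zero : b 0 = 0 := by simp [b]

theorem a_succ (N : ℕ) : a (N + 1) = a N + 2 * b N := by
  simp [a, b, pow_succ, eta]

theorem b_succ (N : ℕ) : b (N + 1) = a N + b N := by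
  simp [a, b, pow_succ, eta]

theorem norm_eq (N : ℕ) : a N ^ 2 - 2 * b N ^ 2 = (-1) ^ N := by
  induction N with
  | zero => simp [a_zero, b_zero]
  | succ N ih =>
    have h : ((-1 : ℤ)) ^ (N + 1) = -((-1) ^ N) := by rw [pow_succ]; ring
    rw [a_succ, b_succ, h, ← ih]; ring

theorem a_pos (N : ℕ) : 1 ≤ a N ∧ 0 ≤ b N := by
  induction N with
  | zero => simp [a_zero, b_zero]
  | succ N ih => rw [a_succ, b_succ]; constructor <;> omega

theorem b_even (N : ℕ) (hN : Even N) : Even (b N) := by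
  have h1 := norm_eq N
  rw [hN.neg_one_pow] at h1
  -- a odd, so 2 b^2 = a^2 - 1 divisible by 8
  by_contra hb
  rw [Int.not_even_iff_odd] at hb
  have ha : Odd (a N) := by
    by_contra ha
    rw [Int.not_odd_iff_even] at ha
    have h2 : Even (a N ^ 2 - 2 * b N ^ 2) := by
      apply Even.sub
      · exact ha.pow_of_ne_zero (by norm_num)
      · exact even_two_mul _
    rw [h1] at h2
    exact absurd h2 (by decide)
  obtain ⟨r, hr⟩ := ha
  obtain ⟨s, hs⟩ := hb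
  rw [hr, hs] at h1
  have h3 : 4 * (r ^ 2 + r) = 2 * (2 * s + 1) ^ 2 := by linarith [h1, sq_nonneg r]
  have h4 : 2 * (r ^ 2 + r) = (2 * s + 1) ^ 2 := by linarith
  have h5 : Odd ((2 * s + 1) ^ 2) := (odd_two_mul_add_one s).pow
  rw [← h4] at h5
  exact (Int.not_odd_iff_even.mpr (even_two_mul _)) h5

theorem a_odd (N : ℕ) : Odd (a N) := by
  have h1 := norm_eq N
  by_contra ha
  rw [Int.not_odd_iff_even] at ha
  have h2 : Even (a N ^ 2 - 2 * b N ^ 2) := by
    apply Even.sub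
    · exact ha.pow_of_ne_zero (by norm_num)
    · exact even_two_mul _
  rw [h1] at h2
  rcases Nat.even_or_odd N with h | h
  · rw [h.neg_one_pow] at h2; exact absurd h2 (by decide)
  · rw [h.neg_one_pow] at h2; exact absurd h2 (by decide)

/-- Key divisibility. -/
theorem mul_dvd (N B : ℕ) (hB : Odd B) (h : (B : ℤ) ∣ a N) :
    a N * B ∣ a (N * B) := by
  set x : ℤ√2 := eta ^ N with hx
  set y : ℤ√2 := -star x with hy
  have hxre : x.re = a N := rfl
  have hxim : x.im = b N := rfl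
  have hxy : x - y = ((2 * a N : ℤ) : ℤ√2) := by
    rw [hy, sub_neg_eq_add]
    ext
    · rw [Zsqrtd.re_add, Zsqrtd.re_star, Zsqrtd.re_intCast, hxre]; ring
    · rw [Zsqrtd.im_add, Zsqrtd.im_star, Zsqrtd.im_intCast]; ring
  have hBd : ((B : ℕ) : ℤ√2) ∣ x - y := by
    rw [hxy]
    obtain ⟨c, hc⟩ := h
    exact ⟨((2 * c : ℤ) : ℤ√2), by rw [hc]; push_cast; ring⟩
  obtain ⟨q, hq⟩ := dvd_geom_sum₂_self hBd
  have h1 : x ^ B - y ^ B = ((2 * a (N * B) : ℤ) : ℤ√2) := by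
    have h2 : y ^ B = - star (x ^ B) := by
      rw [hy, hB.neg_pow, ← star_pow]
    have h3 : x ^ B = eta ^ (N * B) := by rw [hx, pow_mul]
    have h4 : (x ^ B).re = a (N * B) := by rw [h3]; rfl
    rw [h2, sub_neg_eq_add]
    ext
    · rw [Zsqrtd.re_add, Zsqrtd.re_star, Zsqrtd.re_intCast, h4]; ring
    · rw [Zsqrtd.im_add, Zsqrtd.im_star, Zsqrtd.im_intCast]; ring
  have h2 : ((2 * a N * B : ℤ) : ℤ√2) ∣ ((2 * a (N * B) : ℤ) : ℤ√2) := by
    rw [← h1, ← Commute.mul_geom_sum₂ (Commute.all x y) B, hxy, hq]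
    exact ⟨q, by push_cast; ring⟩
  rw [Zsqrtd.intCast_dvd_intCast] at h2
  have h3 : (2 : ℤ) * (a N * B) ∣ 2 * a (N * B) := by
    have : (2 : ℤ) * (a N * B) = 2 * a N * B := by ring
    rw [this]; exact h2
  exact (mul_dvd_mul_iff_left (by norm_num : (2 : ℤ) ≠ 0)).mp h3

theorem a_ge (N : ℕ) : (2 : ℤ) ^ N ≤ 2 * a N := by
  have key : ∀ N : ℕ, a N ≤ 2 * b N + 1 := by
    intro N
    induction N with
    | zero => simp [a_zero, b_zero]
    | succ N ih =>
      rw [a_succ, b_succ]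
      have := a_pos N
      omega
  have key2 : ∀ N : ℕ, 1 ≤ N → a N ≤ 2 * b N := by
    intro N hN
    obtain ⟨M, rfl⟩ : ∃ M, N = M + 1 := ⟨N - 1, by omega⟩
    rw [a_succ, b_succ]
    have := a_pos M
    omega
  induction N with
  | zero => simp [a_zero]
  | succ N ih =>
    rw [pow_succ]
    rcases Nat.eq_zero_or_pos N with h | h
    · subst h
      rw [a_succ, a_zero, b_zero]; norm_num
    · rw [a_succ]
      have := key2 N h
      linarith

theorem a_le (N : ℕ) : (a N : ℝ) ≤ (5 / 2) ^ N ∧ (b N : ℝ) ≤ 3 / 4 * (5 / 2) ^ N := by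
  induction N with
  | zero => simp [a_zero, b_zero]; norm_num
  | succ N ih =>
    rw [a_succ, b_succ, pow_succ]
    push_cast
    obtain ⟨h1, h2⟩ := ih
    have h3 : (0 : ℝ) < (5 / 2) ^ N := by positivity
    constructor <;> linarith

/-- The recursion. -/
theorem step (A : ℕ) (hA : Odd A) (h : ((A : ℤ)) ^ 2 ∣ a (3 * A)) :
    ∃ A' : ℕ, A < A' ∧ Odd A' ∧ ((A' : ℤ)) ^ 2 ∣ a (3 * A') := by
  obtain ⟨c, hc⟩ := h
  have hA0 : (0 : ℤ) < A := by
    have := hA.pos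
    exact_mod_cast this
  have ha0 := (a_pos (3 * A)).1
  have hc0 : 0 < c := by
    by_contra hcon
    push Not at hcon
    have : (A : ℤ) ^ 2 * c ≤ 0 := mul_nonpos_of_nonneg_of_nonpos (by positivity) hcon
    rw [← hc] at this
    omega
  obtain ⟨B, rfl⟩ : ∃ B : ℕ, c = B := ⟨c.toNat, by omega⟩
  have hBodd : Odd B := by
    have h1 := a_odd (3 * A)
    rw [hc] at h1
    have h2 := (Int.odd_mul.mp h1).2
    exact_mod_cast h2
  refine ⟨A * B, ?_, hA.mul hBodd, ?_⟩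
  · -- A < A * B, i.e. B > 1
    have h1 : 1 < B := by
      by_contra hcon
      push Not at hcon
      have hB1 : B = 1 := by
        have : (0 : ℤ) < B := hc0
        omega
      rw [hB1] at hc
      have h2 := a_ge (3 * A)
      rw [hc] at h2
      have h3 : (A : ℤ) < 2 ^ A := by exact_mod_cast Nat.lt_two_pow_self
      have h4 : ((2 : ℤ)) ^ (3 * A) = 2 ^ A * 2 ^ A * 2 ^ A := by
        rw [← pow_add, ← pow_add]; congr 1; ring
      rw [h4] at h2
      have h5 : (2 : ℤ) ≤ 2 ^ A := by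
        have : (1 : ℕ) ≤ A := hA.pos
        calc (2 : ℤ) = 2 ^ 1 := by norm_num
          _ ≤ 2 ^ A := pow_le_pow_right₀ (by norm_num) this
      have h6 : (A : ℤ) * A < 2 ^ A * 2 ^ A := by nlinarith
      push_cast at h2
      nlinarith
    have := hA.pos
    nlinarith
  · have h1 : (B : ℤ) ∣ a (3 * A) := ⟨(A : ℤ) ^ 2, by rw [hc]; ring⟩
    have h2 := mul_dvd (3 * A) B hBodd h1
    have h3 : 3 * (A * B) = 3 * A * B := by ring
    rw [h3]
    refine dvd_trans ?_ h2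
    rw [hc]
    exact ⟨1, by push_cast; ring⟩

theorem exists_big (M : ℕ) : ∃ A : ℕ, M ≤ A ∧ Odd A ∧ ((A : ℤ)) ^ 2 ∣ a (3 * A) := by
  induction M with
  | zero => exact ⟨1, by omega, odd_one, by simp⟩
  | succ M ih =>
    obtain ⟨A, h1, h2, h3⟩ := ih
    obtain ⟨A', h4, h5, h6⟩ := step A h2 h3
    exact ⟨A', by omega, h5, h6⟩

/-- The powerful part. -/
def Q2 (m : ℕ) : ℕ := m.factorization.prod (fun p k => if 2 ≤ k then p ^ k else 1)

/-- A divisor all of whose primes are squared divides the powerful part. -/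
theorem dvd_Q2 {D m : ℕ} (hm : m ≠ 0) (hD : D ∣ m) (hpow : ∀ p : ℕ, p.Prime → p ∣ D → p ^ 2 ∣ D) :
    D ∣ Q2 m := by
  have hD0 : D ≠ 0 := fun h => hm (by rw [h] at hD; exact Nat.eq_zero_of_zero_dvd hD)
  unfold Q2
  rw [Finsupp.prod]
  conv_lhs => rw [← Nat.prod_factorization_pow_eq_self hD0, Finsupp.prod]
  have hsub : D.factorization.support ⊆ m.factorization.support := by
    intro p hp
    rw [Nat.support_factorization] at hp ⊢
    exact Nat.primeFactors_mono hD hm hp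
  refine dvd_trans (Finset.prod_dvd_prod_of_dvd _ _ ?_) (Finset.prod_dvd_prod_of_subset _ _ _ hsub)
  intro p hp
  have hpp : p.Prime := by
    rw [Nat.support_factorization] at hp
    exact Nat.prime_of_mem_primeFactors hp
  have hpD : p ∣ D := by
    rw [Nat.support_factorization] at hp
    exact Nat.dvd_of_mem_primeFactors hp
  have h2 : 2 ≤ D.factorization p := (hpp.pow_dvd_iff_le_factorization hD0).mp (hpow p hpp hpD)
  have h3 : D.factorization p ≤ m.factorization p :=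
    (Nat.factorization_le_iff_dvd hD0 hm).mpr hD p
  rw [if_pos (h2.trans h3)]
  exact pow_dvd_pow p h3

theorem le_Q2 {D m : ℕ} (hm : m ≠ 0) (hD : D ∣ m) (hpow : ∀ p : ℕ, p.Prime → p ∣ D → p ^ 2 ∣ D) :
    D ≤ Q2 m := by
  apply Nat.le_of_dvd _ (dvd_Q2 hm hD hpow)
  unfold Q2
  rw [Finsupp.prod]
  apply Finset.prod_pos
  intro p hp
  split_ifs
  · have hpp : p.Prime := by
      rw [Nat.support_factorization] at hp
      exact Nat.prime_of_mem_primeFactors hp
    exact pow_pos hpp.pos _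
  · exact one_pos

/-- Main estimate: for `A` odd with `A ^ 2 ∣ a (3 A)`, the number `n = a (3A+1) ^ 2 - 2`
satisfies `Q2 (n (n+1) (n+2) ...) ≥ A ^ 2 n ^ 2`. -/
theorem main_est (A : ℕ) (hA : Odd A) (h : ((A : ℤ)) ^ 2 ∣ a (3 * A)) (ℓ : ℕ) (hℓ : 2 ≤ ℓ) :
    ∃ n : ℕ, A < n ∧ A ^ 2 * n ^ 2 ≤ Q2 (∏ i ∈ Finset.range (ℓ + 1), (n + i)) ∧
      (n : ℝ) ≤ ((5 / 2) ^ (3 * A + 1)) ^ 2 := by
  set N := 3 * A with hN
  have hNodd : Odd N := by
    rw [hN]; exact (by decide : Odd 3).mul hA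
  set X := a (N + 1) with hX
  set Y := b (N + 1) with hY
  have hX1 := (a_pos (N + 1)).1
  have hNpos : 1 ≤ A := hA.pos
  -- X ≥ A + 2
  have hXbig : (A : ℤ) + 3 ≤ X := by
    have h1 := a_ge (N + 1)
    have h2 : (A : ℤ) + 1 ≤ 2 ^ A := by
      have : A < 2 ^ A := Nat.lt_two_pow_self
      exact_mod_cast this
    have h3 : ((2 : ℤ)) ^ (N + 1) = 2 ^ A * (2 * (2 ^ A * 2 ^ A)) := by
      rw [hN, ← pow_add]
      rw [show 3 * A + 1 = A + (1 + (A + A)) by ring, pow_add, pow_add 2 1]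
      norm_num
    have h4 : (2 : ℤ) ≤ 2 ^ A := by
      calc (2 : ℤ) = 2 ^ 1 := by norm_num
        _ ≤ 2 ^ A := pow_le_pow_right₀ (by norm_num) hNpos
    have h5 : (8 : ℤ) ≤ 2 * (2 ^ A * 2 ^ A) := by nlinarith
    have h6 : (8 : ℤ) * 2 ^ A ≤ 2 * X := by
      rw [h3] at h1
      nlinarith
    linarith
  have hn1 : a N * a (N + 2) = X ^ 2 - 2 := by
    have e1 := norm_eq N
    rw [hNodd.neg_one_pow] at e1
    rw [hX, a_succ (N + 1), a_succ N, b_succ N]
    linarith [e1, mul_comm (a N) (b N)]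
  have hY1 : X ^ 2 - 1 = 2 * Y ^ 2 := by
    have e1 := norm_eq (N + 1)
    rw [(hNodd.add_one).neg_one_pow] at e1
    linarith
  have hYe : Even Y := b_even (N + 1) hNodd.add_one
  obtain ⟨n, hn⟩ : ∃ n : ℕ, (n : ℤ) = X ^ 2 - 2 := ⟨(X ^ 2 - 2).toNat, by
    rw [Int.toNat_of_nonneg]; nlinarith⟩
  obtain ⟨x, hx⟩ : ∃ x : ℕ, (x : ℤ) = X := ⟨X.toNat, by omega⟩
  obtain ⟨y, hy⟩ : ∃ y : ℕ, (y : ℤ) = Y := ⟨Y.toNat, by
    have := (a_pos (N + 1)).2; omega⟩
  have hye : Even y := by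
    have : Even ((y : ℕ) : ℤ) := by rw [hy]; exact hYe
    exact_mod_cast this
  have hn1' : n + 1 = 2 * y ^ 2 := by
    have : ((n + 1 : ℕ) : ℤ) = ((2 * y ^ 2 : ℕ) : ℤ) := by
      push_cast; rw [hn, hy, ← hY1]; ring
    exact_mod_cast this
  have hn2' : n + 2 = x ^ 2 := by
    have : ((n + 2 : ℕ) : ℤ) = ((x ^ 2 : ℕ) : ℤ) := by
      push_cast; rw [hn, hx]; ring
    exact_mod_cast this
  have hAn : A ^ 2 ∣ n := by
    have : ((A ^ 2 : ℕ) : ℤ) ∣ (n : ℤ) := by
      rw [hn, ← hn1]; push_cast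
      exact dvd_mul_of_dvd_left h _
    exact_mod_cast this
  have hAltn : A < n := by
    have h1 : ((A : ℤ)) < n := by
      rw [hn]; nlinarith
    exact_mod_cast h1
  have hn0 : 0 < n := by omega
  set P := ∏ i ∈ Finset.range (ℓ + 1), (n + i) with hP
  have hP0 : P ≠ 0 := by
    rw [hP, Finset.prod_ne_zero_iff]
    intro i _; omega
  have hD : A ^ 2 * (n + 1) * (n + 2) ∣ P := by
    have h1 : n * (n + 1) * (n + 2) = ∏ i ∈ Finset.range 3, (n + i) := by
      simp [Finset.prod_range_succ]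
    have h2 : A ^ 2 * (n + 1) * (n + 2) ∣ n * (n + 1) * (n + 2) :=
      mul_dvd_mul (mul_dvd_mul hAn dvd_rfl) dvd_rfl
    refine h2.trans ?_
    rw [h1, hP]
    apply Finset.prod_dvd_prod_of_subset
    intro i hi
    rw [Finset.mem_range] at hi ⊢
    omega
  have hpow : ∀ p : ℕ, p.Prime → p ∣ A ^ 2 * (n + 1) * (n + 2) →
      p ^ 2 ∣ A ^ 2 * (n + 1) * (n + 2) := by
    intro p hp hpD
    rw [hn1', hn2'] at hpD ⊢
    rcases (Nat.Prime.dvd_mul hp).mp hpD with h1 | h1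
    · rcases (Nat.Prime.dvd_mul hp).mp h1 with h2 | h2
      · have := hp.dvd_of_dvd_pow h2
        exact dvd_mul_of_dvd_left (dvd_mul_of_dvd_left (pow_dvd_pow_of_dvd this 2) _) _
      · rcases (Nat.Prime.dvd_mul hp).mp h2 with h3 | h3
        · have hp2 : p = 2 := (Nat.prime_dvd_prime_iff_eq hp Nat.prime_two).mp h3
          subst hp2
          have h4 : 2 ∣ y := hye.two_dvd
          exact dvd_mul_of_dvd_left (dvd_mul_of_dvd_right
            (dvd_mul_of_dvd_right (pow_dvd_pow_of_dvd h4 2) _) _) _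
        · have := hp.dvd_of_dvd_pow h3
          exact dvd_mul_of_dvd_left (dvd_mul_of_dvd_right
            (dvd_mul_of_dvd_right (pow_dvd_pow_of_dvd this 2) _) _) _
    · have := hp.dvd_of_dvd_pow h1
      exact dvd_mul_of_dvd_right (pow_dvd_pow_of_dvd this 2) _
  refine ⟨n, hAltn, ?_, ?_⟩
  · refine le_trans ?_ (le_Q2 hP0 hD hpow)
    nlinarith [Nat.zero_le (A ^ 2), Nat.zero_le n]
  · have h1 := (a_le (N + 1)).1
    have h2 : (n : ℝ) ≤ (X : ℝ) ^ 2 := by
      have h3 : ((n : ℤ) : ℝ) = ((X ^ 2 - 2 : ℤ) : ℝ) := by rw [hn]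
      push_cast at h3
      rw [h3]; linarith
    refine h2.trans ?_
    apply pow_le_pow_left₀ _ h1
    exact_mod_cast (by linarith : (0 : ℤ) ≤ X)

theorem log_bound (A : ℕ) (hA : 19 ≤ A) (n : ℕ) (hn0 : 1 ≤ n)
    (hn : (n : ℝ) ≤ ((5 / 2) ^ (3 * A + 1)) ^ 2) : (Real.log n) ^ 2 ≤ 32 * (A : ℝ) ^ 2 := by
  have h1 : (5 / 2 : ℝ) ^ 12 ≤ Real.exp 11 := by
    have h2 : Real.exp 11 = (Real.exp 1) ^ 11 := by
      rw [← Real.exp_nat_mul]; norm_num
    rw [h2]
    have h3 := Real.exp_one_gt_d9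
    calc (5 / 2 : ℝ) ^ 12 ≤ (2.7182818283 : ℝ) ^ 11 := by norm_num
      _ ≤ (Real.exp 1) ^ 11 := pow_le_pow_left₀ (by norm_num) h3.le 11
  have h2 : 12 * Real.log (5 / 2) ≤ 11 := by
    have := Real.log_le_log (by positivity) h1
    rw [Real.log_pow, Real.log_exp] at this
    exact_mod_cast this
  have hn' : (0 : ℝ) < n := by exact_mod_cast hn0
  have h3 := Real.log_le_log hn' hn
  rw [Real.log_pow, Real.log_pow] at h3
  push_cast at h3
  have h4 : 0 ≤ Real.log n := Real.log_natCast_nonneg n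
  have hA' : (19 : ℝ) ≤ A := by exact_mod_cast hA
  have h5 : Real.log n ≤ 5.6 * A := by
    have : (3 * (A : ℝ) + 1) * (12 * Real.log (5 / 2)) ≤ (3 * (A : ℝ) + 1) * 11 :=
      mul_le_mul_of_nonneg_left h2 (by positivity)
    nlinarith
  nlinarith

end Pool.Agent.PowPart
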